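import Mathlib
import Pool.Agent.Lib_helper94.MX.Final
import Pool.Agent.Lib_helper34.MX.PlanarCount
import Pool.Agent.Lib_helper34.MX.Collinear
import Pool.Agent.Lib_helper17.MX.Ext

/-!
# Maxwell's conjecture for three point charges (MP_de1f29_an)

Three point charges of arbitrary nonzero real strengths at distinct points of `ℝ³`, all of whose
equilibria are non-degenerate, have at most four equilibria.
-/

set_option autoImplicit false

namespace Pool.Agent.Results.MP_de1f29_an.MaxwellThreeCharges

/-- Euclidean space `ℝ³` -/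
abbrev Space := EuclideanSpace ℝ (Fin 3)

/-- the Coulomb potential `V(x) = ∑_j q_j / ‖x - a_j‖` -/
noncomputable def V (q : Fin 3 → ℝ) (a : Fin 3 → Space) (x : Space) : ℝ :=
  ∑ j, q j / ‖x - a j‖

/-- the partial derivative `∂f/∂x_i` -/
noncomputable def partialD (i : Fin 3) (f : Space → ℝ) (x : Space) : ℝ :=
  deriv (fun t : ℝ => f (x + t • EuclideanSpace.single i (1 : ℝ))) 0

/-- the Hessian matrix `(∂²f/∂x_i∂x_k)` -/
noncomputable def hessian (f : Space → ℝ) (x : Space) : Matrix (Fin 3) (Fin 3) ℝ :=
  fun i k => partialD i (partialD k f) x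

/-- `x` is an equilibrium: it is not a charge and all partial derivatives of `V` vanish -/
def IsEquilibrium (q : Fin 3 → ℝ) (a : Fin 3 → Space) (x : Space) : Prop :=
  (∀ j, x ≠ a j) ∧ ∀ i, partialD i (V q a) x = 0

/-- an equilibrium is non-degenerate: the Hessian matrix of `V` is non-singular -/
def NonDegenerate (q : Fin 3 → ℝ) (a : Fin 3 → Space) (x : Space) : Prop :=
  (hessian (V q a) x).det ≠ 0

open N62f3cee0 Pool.Agent.MX

theorem V_eq (q : Fin 3 → ℝ) (a : Fin 3 → Space) : V q a = potential q a := by
  funext x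
  unfold V potential
  exact Finset.sum_congr rfl fun j _ => by rw [dist_eq_norm]

theorem partialD_of_hasFDerivAt {f : Space → ℝ} {L : Space →L[ℝ] ℝ} {x : Space}
    (h : HasFDerivAt f L x) (i : Fin 3) :
    partialD i f x = L (EuclideanSpace.single i (1 : ℝ)) := by
  unfold partialD
  have h1 : HasDerivAt (fun t : ℝ => x + t • EuclideanSpace.single i (1 : ℝ))
      (EuclideanSpace.single i (1 : ℝ)) 0 := by
    have := ((hasDerivAt_id (0 : ℝ)).smul_const (EuclideanSpace.single i (1 : ℝ))).const_add x
    simpa using this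
  have h2 : HasFDerivAt f L (x + (0 : ℝ) • EuclideanSpace.single i (1 : ℝ)) := by
    simpa using h
  exact (h2.comp_hasDerivAt (0 : ℝ) h1).deriv

theorem partialD_V (q : Fin 3 → ℝ) (a : Fin 3 → Space) (x : Space) (hx : ∀ j, x ≠ a j)
    (i : Fin 3) : partialD i (V q a) x = (gradV q a x) i := by
  rw [V_eq, partialD_of_hasFDerivAt (hasFDerivAt_potential q a x hx) i, innerSL_apply_apply,
    real_inner_comm, EuclideanSpace.inner_single_left]
  simp

theorem isEquilibrium_iff (q : Fin 3 → ℝ) (a : Fin 3 → Space) (x : Space) :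
    IsEquilibrium q a x ↔ x ∈ equilibria q a := by
  rw [mem_equilibria_iff]
  unfold IsEquilibrium
  refine and_congr_right fun hx => ?_
  constructor
  · intro h
    ext i
    rw [← partialD_V q a x hx i, h i]
    simp
  · intro h i
    rw [partialD_V q a x hx i, h]
    simp

theorem hessian_eq (q : Fin 3 → ℝ) (a : Fin 3 → Space) (x : Space) (hx : ∀ j, x ≠ a j)
    (i k : Fin 3) : hessian (V q a) x i k =
      iteratedFDeriv ℝ 2 (potential q a) x
        ![EuclideanSpace.single i (1 : ℝ), EuclideanSpace.single k (1 : ℝ)] := by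
  rw [iteratedFDeriv_two_apply]
  simp only [Matrix.cons_val_zero, Matrix.cons_val_one]
  rw [(fderiv_potential_eventually q a x hx).fderiv_eq]
  have h1 : HasFDerivAt (fun y => innerSL ℝ (gradV q a y)) _ x :=
    (innerSL ℝ : E3 →L[ℝ] E3 →L[ℝ] ℝ).hasFDerivAt.comp x (hasFDerivAt_gradV q a x hx)
  rw [h1.fderiv]
  have h2 := h1.clm_apply (hasFDerivAt_const (EuclideanSpace.single k (1 : ℝ)) x)
  have h3 : (fun y => partialD k (V q a) y) =ᶠ[nhds x]
      fun y => innerSL ℝ (gradV q a y) (EuclideanSpace.single k (1 : ℝ)) := by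
    have : ∀ᶠ y in nhds x, ∀ j, y ≠ a j := by
      rw [Filter.eventually_all]
      intro j
      exact isOpen_ne.mem_nhds (hx j)
    filter_upwards [this] with y hy
    rw [V_eq, partialD_of_hasFDerivAt (hasFDerivAt_potential q a y hy) k]
  have h4 := h2.congr_of_eventuallyEq h3
  unfold hessian
  rw [partialD_of_hasFDerivAt h4 i]
  simp

theorem nondeg (q : Fin 3 → ℝ) (a : Fin 3 → Space) (x : Space) (hx : ∀ j, x ≠ a j)
    (h : NonDegenerate q a x) : HasNondegenerateHessianAt (potential q a) x := by
  intro v hv
  by_contra hcon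
  push Not at hcon
  apply hv
  have h1 : Matrix.vecMul (fun i => v i) (hessian (V q a) x) = 0 := by
    funext k
    have h2 := hcon (EuclideanSpace.single k (1 : ℝ))
    rw [iteratedFDeriv_two_apply] at h2
    simp only [Matrix.cons_val_zero, Matrix.cons_val_one] at h2
    have hv' : v = ∑ i, v i • EuclideanSpace.single i (1 : ℝ) := by
      ext j
      simp [Pi.single_apply]
    rw [hv', map_sum, sum_apply] at h2
    simp only [Matrix.vecMul, dotProduct, Pi.zero_apply]
    rw [← h2]
    refine Finset.sum_congr rfl fun i _ => ?_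
    rw [hessian_eq q a x hx i k, iteratedFDeriv_two_apply]
    simp
  have h3 := Matrix.eq_zero_of_vecMul_eq_zero h h1
  ext i
  exact congrFun h3 i

/-- **Maxwell's conjecture for three charges.** Three point charges of arbitrary nonzero real
strengths at distinct points of `ℝ³`, all of whose equilibria are non-degenerate, have at most
four equilibria. -/
theorem result (q : Fin 3 → ℝ) (a : Fin 3 → Space) (hq : ∀ j, q j ≠ 0)
    (ha : ∀ j k, j ≠ k → a j ≠ a k)
    (hnd : ∀ x, IsEquilibrium q a x → NonDegenerate q a x) :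
    {x | IsEquilibrium q a x}.encard ≤ 4 := by
  have hinj : Function.Injective a := by
    intro j k h
    by_contra hne
    exact ha j k hne h
  have he : {x | IsEquilibrium q a x} = equilibria q a := by
    ext x
    exact isEquilibrium_iff q a x
  rw [he]
  refine main_of angle_unique planar_count collinear_case q a hinj hq ?_
  intro x hx
  have hx' := (isEquilibrium_iff q a x).2 hx
  exact nondeg q a x hx'.1 (hnd x hx')

end Pool.Agent.Results.MP_de1f29_an.MaxwellThreeCharges
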